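import Pool.Agent.helper44.FirstFit.Main

/-!
# First-Fit as a procedure, and the width

`place acc x`: the index of the chain in which First-Fit puts the new element `x`, when `acc` is the list of the
elements placed so far together with the indices of their chains (the chains are numbered `0, 1, 2, …`).
`firstFit [] l`: the result of First-Fit for the presentation order `l`. `numChains l`: the number of nonempty chains.
-/

set_option autoImplicit false

namespace Pool.Agent.helper23.FFI

open Pool.Agent.helper44.FirstFit Nat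

section

variable {P : Type} [PartialOrder P]

/-- the least index `i` such that `x` is comparable to every element which is already in the chain `i` -/
noncomputable def place (acc : List (P × ℕ)) (x : P) : ℕ :=
  sInf {i : ℕ | ∀ y : P, (y, i) ∈ acc → x ≤ y ∨ y ≤ x}

/-- First-Fit: the elements of the list are placed one after the other -/
noncomputable def firstFit : List (P × ℕ) → List P → List (P × ℕ)
  | acc, [] => acc
  | acc, x :: l => firstFit ((x, place acc x) :: acc) l

/-- the number of nonempty chains which First-Fit produces -/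
noncomputable def numChains (l : List P) : ℕ := {i : ℕ | ∃ x : P, (x, i) ∈ firstFit [] l}.ncard

end

/-- the width of `P` is `w` -/
def IsWidth (P : Type) [PartialOrder P] (w : ℕ) : Prop :=
  (∃ s : Finset P, IsAntichain (· ≤ ·) (s : Set P) ∧ s.card = w) ∧
    ∀ s : Finset P, IsAntichain (· ≤ ·) (s : Set P) → s.card ≤ w

/-- `FF (w, Q) ≥ m`: on some finite `Q`-free poset of width `w` First-Fit produces, for some presentation order, at
least `m` nonempty chains. -/
def FFge (w : ℕ) (Q : Type) [PartialOrder Q] (m : ℕ) : Prop :=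
  ∃ (P : Type) (_ : Finite P) (_ : PartialOrder P) (l : List P), IsWidth P w ∧ IsEmpty (Q ↪o P) ∧
    l.Nodup ∧ (∀ x, x ∈ l) ∧ m ≤ numChains l

/-- `Good` with an antichain of size `w`. -/
def GoodW (w k : ℕ) : Prop :=
  ∃ (P : Type) (_ : Finite P) (_ : PartialOrder P) (f : P → ℕ) (ch : P → Fin w),
    (∀ x, f x < k) ∧ (∀ c, c < k → ∃ x, f x = c) ∧
    (∀ x y, f x = f y → x ≤ y ∨ y ≤ x) ∧
    (∀ x : P, ∀ c : ℕ, c < f x → ∃ y : P, f y = c ∧ ¬ x ≤ y ∧ ¬ y ≤ x) ∧
    (∀ x y, ch x = ch y → x ≤ y ∨ y ≤ x) ∧ IsEmpty (R8 ↪o P) ∧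
    ∃ a : Fin w → P, ∀ i j, a i ≤ a j → i = j

theorem goodW_one : GoodW 1 1 := by
  refine ⟨PUnit, inferInstance, inferInstance, fun _ => 0, fun _ => 0, fun _ => by simp,
    fun c hc => ⟨PUnit.unit, (Nat.lt_one_iff.1 hc).symm⟩, fun x y _ => Or.inl le_rfl,
    fun x c hc => by simp at hc, fun x y _ => Or.inl le_rfl, ⟨fun e => ?_⟩,
    fun _ => PUnit.unit, fun i j _ => Subsingleton.elim i j⟩
  have h : (⟨0⟩ : R8) = ⟨1⟩ := e.injective rfl
  simp at h

theorem goodW_succ (w k : ℕ) (hk : 0 < k) (h : GoodW w k) : GoodW (w + 1) ((w + 2) * k) := by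
  obtain ⟨P, hP, hord, f, ch, hfk, hs, hc, hsup, hch, hQ, -⟩ := h
  refine ⟨Node f w k, inferInstance, inferInstance, Node.col, Node.chain ch, Node.col_lt hfk,
    Node.exists_col hfk hs, Node.class_chain hfk hc, Node.support hfk hs hsup,
    Node.chain_chain ch hch, Node.no_embed hQ,
    fun i => if hi : i.val < w then Node.K i.val 0 hi hk else Node.V w 0 le_rfl hk, ?_⟩
  intro i j hij
  have hi := i.isLt
  have hj := j.isLt
  beta_reduce at hij
  by_cases h1 : i.val < w <;> by_cases h2 : j.val < w
  · rw [dif_pos h1, dif_pos h2] at hij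
    exact Fin.ext (show i.val = j.val from ((Node.le_def _ _).1 hij).1)
  · rw [dif_pos h1, dif_neg h2] at hij
    exact ((Node.le_def _ _).1 hij).elim
  · rw [dif_neg h1, dif_pos h2] at hij
    have h3 : w < j.val ∨ (w = j.val ∧ 0 ≤ 0) := (Node.le_def _ _).1 hij
    omega
  · exact Fin.ext (by omega)

theorem goodW_factorial (w : ℕ) : ∃ k, 2 * k = (w + 2)! ∧ 0 < k ∧ GoodW (w + 1) k := by
  induction w with
  | zero => exact ⟨1, rfl, one_pos, goodW_one⟩
  | succ w ih =>
    obtain ⟨k, h1, hk, h2⟩ := ih
    refine ⟨(w + 3) * k, ?_, by positivity, goodW_succ _ _ hk h2⟩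
    rw [Nat.factorial_succ (w + 2), ← h1]
    ring

section

variable {P : Type} [PartialOrder P]

/-- if the colouring `f` has the First-Fit property and the elements are presented in the order of their colours,
then First-Fit produces the colouring `f` -/
theorem firstFit_eq (f : P → ℕ) (hsame : ∀ x y, f x = f y → x ≤ y ∨ y ≤ x)
    (hsup : ∀ x : P, ∀ c : ℕ, c < f x → ∃ y : P, f y = c ∧ ¬ x ≤ y ∧ ¬ y ≤ x) (l done : List P)
    (h1 : ∀ x ∈ done, ∀ y ∈ l, f x ≤ f y) (h2 : l.Pairwise (fun x y => f x ≤ f y))
    (h3 : ∀ y, y ∈ done ∨ y ∈ l) :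
    firstFit (done.map (fun x => (x, f x))) l = (l.reverse ++ done).map (fun x => (x, f x)) := by
  induction l generalizing done with
  | nil => rfl
  | cons x l ih =>
    have hx : place (done.map (fun x => (x, f x))) x = f x := by
      apply le_antisymm
      · apply Nat.sInf_le
        intro y hy
        obtain ⟨z, _, hz2⟩ := List.mem_map.1 hy
        have hzy : z = y := congrArg Prod.fst hz2
        have hf : f z = f x := congrArg Prod.snd hz2
        rw [← hzy]
        exact hsame x z hf.symm
      · refine le_csInf ⟨f x, ?_⟩ fun i hi => ?_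
        · intro y hy
          obtain ⟨z, _, hz2⟩ := List.mem_map.1 hy
          have hzy : z = y := congrArg Prod.fst hz2
          have hf : f z = f x := congrArg Prod.snd hz2
          rw [← hzy]
          exact hsame x z hf.symm
        · by_contra hlt
          obtain ⟨y, hy1, hy2, hy3⟩ := hsup x i (by omega)
          have hyd : y ∈ done := by
            rcases h3 y with h | h
            · exact h
            · exfalso
              rcases List.mem_cons.1 h with h | h
              · rw [h] at hy1
                omega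
              · have := (List.pairwise_cons.1 h2).1 y h
                omega
          rcases hi y (List.mem_map.2 ⟨y, hyd, by rw [hy1]⟩) with h | h
          · exact hy2 h
          · exact hy3 h
    change firstFit ((x, place (done.map (fun x => (x, f x))) x) :: done.map (fun x => (x, f x))) l =
      _
    rw [hx]
    have h4 := ih (x :: done) ?_ (List.pairwise_cons.1 h2).2 ?_
    · rw [List.map_cons] at h4
      rw [h4, List.reverse_cons, List.append_assoc, List.singleton_append]
    · intro a ha b hb
      rcases List.mem_cons.1 ha with h | h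
      · rw [h]
        exact (List.pairwise_cons.1 h2).1 b hb
      · exact h1 a h b (List.mem_cons_of_mem _ hb)
    · intro y
      rcases h3 y with h | h
      · exact Or.inl (List.mem_cons_of_mem _ h)
      · rcases List.mem_cons.1 h with h | h
        · exact Or.inl (h ▸ List.mem_cons_self)
        · exact Or.inr h

end

theorem ffge_of_good {w k : ℕ} (h : GoodW w k) : FFge w R8 k := by
  classical
  obtain ⟨P, hP, hord, f, ch, hfk, hs, hc, hsup, hch, hQ, a, ha⟩ := h
  have := Fintype.ofFinite P
  let r : P → P → Prop := fun x y => f x ≤ f y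
  have htot : Std.Total r := ⟨fun x y => le_total (f x) (f y)⟩
  have htr : IsTrans P r := ⟨fun x y z => le_trans⟩
  let l := (Finset.univ : Finset P).toList.insertionSort r
  have hperm : l.Perm (Finset.univ : Finset P).toList := List.perm_insertionSort r _
  have hmem : ∀ x, x ∈ l := fun x => hperm.mem_iff.2 (Finset.mem_toList.2 (Finset.mem_univ x))
  have hpw : l.Pairwise (fun x y => f x ≤ f y) := List.pairwise_insertionSort r _
  have hff := firstFit_eq f hc hsup l [] (fun x hx => absurd hx List.not_mem_nil) hpw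
    (fun y => Or.inr (hmem y))
  have hnum : numChains l = k := by
    have h1 : {i : ℕ | ∃ x : P, (x, i) ∈ firstFit [] l} = (Finset.range k : Set ℕ) := by
      ext i
      rw [Finset.coe_range, Set.mem_Iio]
      change (∃ x : P, (x, i) ∈ firstFit [] l) ↔ _
      have hff' : firstFit [] l = (l.reverse ++ []).map (fun x => (x, f x)) := by
        rw [← hff]
        rfl
      rw [hff']
      constructor
      · rintro ⟨x, hx⟩
        obtain ⟨z, _, hz⟩ := List.mem_map.1 hx
        have : f z = i := congrArg Prod.snd hz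
        rw [← this]
        exact hfk z
      · intro hi
        obtain ⟨x, hx⟩ := hs i hi
        exact ⟨x, List.mem_map.2 ⟨x, by simp [hmem x], by rw [hx]⟩⟩
    unfold numChains
    rw [h1, Set.ncard_coe_finset, Finset.card_range]
  refine ⟨P, hP, hord, l, ⟨?_, fun s hs' => card_le_of_chains ch hch s hs'⟩, hQ,
    hperm.nodup_iff.2 (Finset.nodup_toList _), hmem, hnum.ge⟩
  have hinj : Function.Injective a := fun i j hij => ha i j (le_of_eq hij)
  refine ⟨Finset.univ.map ⟨a, hinj⟩, ?_, by simp⟩
  intro x hx y hy hxy hle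
  obtain ⟨i, _, rfl⟩ := Finset.mem_map.1 (Finset.mem_coe.1 hx)
  obtain ⟨j, _, rfl⟩ := Finset.mem_map.1 (Finset.mem_coe.1 hy)
  exact hxy (congrArg a (ha i j hle))

theorem width_R8 : IsWidth R8 2 := by
  classical
  refine ⟨⟨{⟨0⟩, ⟨1⟩}, ?_, ?_⟩, ?_⟩
  · intro a ha b hb hab h
    simp only [Finset.coe_insert, Finset.coe_singleton, Set.mem_insert_iff,
      Set.mem_singleton_iff] at ha hb
    rcases ha with rfl | rfl <;> rcases hb with rfl | rfl <;> simp [R8.le_iff] at h hab
  · rw [Finset.card_pair]
    intro h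
    simp at h
  · intro s hs
    refine card_le_of_chains (w := 2) (fun q => ⟨q.val.val % 2, Nat.mod_lt _ (by omega)⟩) ?_ s hs
    intro x y h
    simp only [Fin.mk.injEq] at h
    simp only [R8.le_iff, Fin.ext_iff]
    omega

theorem ffge_factorial (w : ℕ) (hw : 1 ≤ w) : FFge w R8 ((w + 1)! / 2) := by
  obtain ⟨v, rfl⟩ : ∃ v, w = v + 1 := ⟨w - 1, by omega⟩
  obtain ⟨k, h1, -, h2⟩ := goodW_factorial v
  have h3 : (v + 1 + 1)! / 2 = k := by
    rw [show v + 1 + 1 = v + 2 from rfl, ← h1]
    omega
  rw [h3]
  exact ffge_of_good h2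

theorem superexp (c : ℝ) : ∃ w : ℕ, 1 ≤ w ∧ c ^ w < ((w + 1)! / 2 : ℕ) := by
  have h1 := FloorSemiring.tendsto_pow_div_factorial_atTop |c|
  have h2 : ∀ᶠ n : ℕ in Filter.atTop, |c| ^ n / n ! < 1 / 2 :=
    h1.eventually (gt_mem_nhds (by norm_num))
  obtain ⟨N, hN⟩ := Filter.eventually_atTop.1 h2
  refine ⟨N + 1, by omega, ?_⟩
  have h3 := hN (N + 1) (by omega)
  have h4 : (0 : ℝ) < (N + 1 : ℕ)! := by exact_mod_cast Nat.factorial_pos _
  rw [div_lt_iff₀ h4] at h3
  have h5 : c ^ (N + 1) ≤ |c| ^ (N + 1) := by
    rw [← abs_pow]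
    exact le_abs_self _
  have h6 : ((N + 1)! : ℕ) ≤ (N + 1 + 1)! / 2 := by
    rw [Nat.le_div_iff_mul_le (by norm_num), Nat.factorial_succ (N + 1), mul_comm]
    exact Nat.mul_le_mul_right _ (by omega)
  have h7 : ((N + 1)! : ℝ) ≤ ((N + 1 + 1)! / 2 : ℕ) := by exact_mod_cast h6
  linarith

end Pool.Agent.helper23.FFI
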